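import Pool.Agent.H5.RPG.Stmts

/-!
Board rpg (MP_e3dc0b_lc), row RCL, helper46.
-/

set_option autoImplicit false

namespace Pool.RPG

theorem rcl_pre_mono {V ι : Type} (i : Bool) (o : V → Bool) (s : V → ι → V) {T T' : Set V}
    (h : T ⊆ T') (u : V) (hu : Pre i o s T u) : Pre i o s T' u := by
  unfold Pre at hu ⊢
  split_ifs at hu ⊢ with h1
  · obtain ⟨j, hj⟩ := hu
    exact ⟨j, h hj⟩
  · exact fun j => h (hu j)

theorem rcl_thm : RCLStmt := by
  intro V ι i o e s W
  refine ⟨?_, ?_, ?_, ?_⟩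
  · intro v hv T hT _
    exact hT hv
  · intro u hu hpre T hT hcl
    refine hcl u hu (rcl_pre_mono i o s ?_ u hpre)
    intro v hv
    exact hv T hT hcl
  · intro u hu
    have h := hu {v | v ∉ W} ?_ ?_
    · exact h
    · rintro v ⟨S, hv, hS⟩
      exact (hS v hv).1
    · intro v hv _
      exact hv
  · intro T hT hcl v hv
    exact hv T hT hcl

end Pool.RPG
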